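import Mathlib

/-! Divisor moments, the divisor bound, and crude Mertens bounds. -/

namespace Pool.Agent.P.MP_0ad054_nt

open Finset

/-- number of divisors, as a real number -/
noncomputable def tau (n : ℕ) : ℝ := (n.divisors.card : ℝ)

theorem tau_nonneg (n : ℕ) : 0 ≤ tau n := Nat.cast_nonneg _

theorem one_le_tau {n : ℕ} (hn : n ≠ 0) : 1 ≤ tau n := by
  unfold tau
  exact_mod_cast card_pos.2 ⟨1, Nat.one_mem_divisors.2 hn⟩

theorem tau_mul_le (a b : ℕ) : tau (a * b) ≤ tau a * tau b := by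
  unfold tau
  rw [Nat.divisors_mul]
  exact_mod_cast card_mul_le

theorem two_pow_le_tau {n : ℕ} (hn : n ≠ 0) : (2 : ℝ) ^ n.primeFactors.card ≤ tau n := by
  unfold tau
  rw [Nat.card_divisors hn]
  have : 2 ^ n.primeFactors.card ≤ ∏ x ∈ n.primeFactors, (n.factorization x + 1) :=
    pow_card_le_prod _ _ _ fun p hp => by
      have := (Nat.prime_of_mem_primeFactors hp).factorization_pos_of_dvd hn
        (Nat.dvd_of_mem_primeFactors hp)
      omega
  exact_mod_cast this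

/-- Sums over products: a general splitting inequality. -/
theorem sum_divisors_split (X : ℕ) (f : ℕ → ℕ → ℝ) (hf : ∀ a b, 0 ≤ f a b) :
    ∑ n ∈ Icc 1 X, ∑ d ∈ n.divisors, f d (n / d) ≤ ∑ a ∈ Icc 1 X, ∑ b ∈ Icc 1 X, f a b := by
  rw [sum_sigma', ← sum_product']
  set φ : (Σ _ : ℕ, ℕ) → ℕ × ℕ := fun z => (z.2, z.1 / z.2)
  have hinj : Set.InjOn φ ((Icc 1 X).sigma (fun n => n.divisors) : Finset _) := by
    rintro ⟨n, d⟩ h1 ⟨n', d'⟩ h2 h
    simp only [coe_sigma, Set.mem_sigma_iff, mem_coe] at h1 h2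
    simp only [φ, Prod.mk.injEq] at h
    obtain ⟨rfl, h3⟩ := h
    rw [← Nat.mul_div_cancel' (Nat.dvd_of_mem_divisors h1.2), h3,
      Nat.mul_div_cancel' (Nat.dvd_of_mem_divisors h2.2)]
  have : ∑ z ∈ (Icc 1 X).sigma (fun n => n.divisors), f z.2 (z.1 / z.2) =
      ∑ z ∈ (Icc 1 X).sigma (fun n => n.divisors), (fun y : ℕ × ℕ => f y.1 y.2) (φ z) := rfl
  rw [this, ← sum_image (f := fun y : ℕ × ℕ => f y.1 y.2) hinj]
  refine sum_le_sum_of_subset_of_nonneg ?_ fun _ _ _ => hf _ _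
  intro y hy
  obtain ⟨⟨n, d⟩, hz, rfl⟩ := mem_image.1 hy
  simp only [mem_sigma, mem_Icc, Nat.mem_divisors] at hz
  have h1 := Nat.le_of_dvd (by omega) hz.2.1
  have h2 := Nat.pos_of_dvd_of_pos hz.2.1 (by omega)
  have h3 := Nat.div_pos h1 h2
  have h4 := Nat.div_le_self n d
  simp only [φ, mem_product, mem_Icc]
  omega

theorem sum_inv_le_log (X : ℕ) : ∑ n ∈ Icc 1 X, 1 / (n : ℝ) ≤ 1 + Real.log X := by
  have := harmonic_le_one_add_log X
  rw [harmonic_eq_sum_Icc] at this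
  push_cast at this
  simpa using this

theorem sum_tau_pow_div_le (k X : ℕ) :
    ∑ n ∈ Icc 1 X, tau n ^ k / n ≤ (1 + Real.log X) ^ 2 ^ k := by
  induction k with
  | zero => simpa using sum_inv_le_log X
  | succ k ih =>
    have h0 : 0 ≤ ∑ n ∈ Icc 1 X, tau n ^ k / n :=
      sum_nonneg fun n _ => by have := tau_nonneg n; positivity
    calc ∑ n ∈ Icc 1 X, tau n ^ (k + 1) / n
        ≤ ∑ n ∈ Icc 1 X, ∑ d ∈ n.divisors, tau d ^ k / d * (tau (n / d) ^ k / (n / d : ℕ)) := by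
          refine sum_le_sum fun n _ => ?_
          have e1 : tau n ^ (k + 1) / n = ∑ _d ∈ n.divisors, tau n ^ k / n := by
            rw [sum_const, nsmul_eq_mul, pow_succ]; unfold tau; ring
          rw [e1]
          refine sum_le_sum fun d hd => ?_
          have h1 := Nat.mul_div_cancel' (Nat.dvd_of_mem_divisors hd)
          have h2 := tau_mul_le d (n / d)
          rw [h1] at h2
          have h3 : (n : ℝ) = d * (n / d : ℕ) := by exact_mod_cast h1.symm
          rw [div_mul_div_comm, ← h3, ← mul_pow]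
          have := tau_nonneg n
          gcongr
      _ ≤ ∑ a ∈ Icc 1 X, ∑ b ∈ Icc 1 X, tau a ^ k / a * (tau b ^ k / b) :=
          sum_divisors_split X (fun a b => tau a ^ k / a * (tau b ^ k / b)) fun a b => by
            have := tau_nonneg a; have := tau_nonneg b; positivity
      _ = (∑ n ∈ Icc 1 X, tau n ^ k / n) ^ 2 := by rw [← sum_mul_sum, sq]
      _ ≤ ((1 + Real.log X) ^ 2 ^ k) ^ 2 := by gcongr
      _ = _ := by rw [← pow_mul, pow_succ]

theorem sum_tau_pow_le (k X : ℕ) :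
    ∑ n ∈ Icc 1 X, tau n ^ k ≤ X * (1 + Real.log X) ^ 2 ^ k := by
  calc ∑ n ∈ Icc 1 X, tau n ^ k ≤ ∑ n ∈ Icc 1 X, X * (tau n ^ k / n) := by
        refine sum_le_sum fun n hn => ?_
        rw [mem_Icc] at hn
        have h1 : (0 : ℝ) < n := by exact_mod_cast hn.1
        have h2 : (n : ℝ) ≤ X := by exact_mod_cast hn.2
        have := tau_nonneg n
        rw [← mul_div_assoc, le_div_iff₀ h1, mul_comm]
        gcongr
    _ ≤ _ := by
        rw [← mul_sum]
        gcongr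
        exact sum_tau_pow_div_le k X

theorem one_add_log_le {ε : ℝ} (hε : 0 < ε) :
    ∃ C : ℝ, 0 < C ∧ ∀ x : ℝ, 1 ≤ x → 1 + Real.log x ≤ C * x ^ ε := by
  refine ⟨1 + 1 / ε, by positivity, fun x hx => ?_⟩
  have h1 := Real.log_le_rpow_div (show 0 ≤ x by linarith) hε
  have h2 : 1 ≤ x ^ ε := Real.one_le_rpow hx hε.le
  have : (1 + 1 / ε) * x ^ ε = x ^ ε + x ^ ε / ε := by ring
  linarith

/-- The divisor bound. -/
theorem tau_le {ε : ℝ} (hε : 0 < ε) : ∃ C : ℝ, 0 < C ∧ ∀ n : ℕ, tau n ≤ C * (n : ℝ) ^ ε := by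
  obtain ⟨k, hk⟩ := exists_nat_ge (2 / ε)
  have hk0 : (0 : ℝ) < k := lt_of_lt_of_le (by positivity) hk
  have hk1 : k ≠ 0 := by exact_mod_cast hk0.ne'
  obtain ⟨C, hC, h⟩ := one_add_log_le (ε := 1 / 2 ^ k) (by positivity)
  refine ⟨(C ^ 2 ^ k) ^ (1 / k : ℝ), by positivity, fun n => ?_⟩
  rcases Nat.eq_zero_or_pos n with rfl | hn
  · simp only [tau, Nat.divisors_zero, card_empty, Nat.cast_zero]; positivity
  have hn1 : (1 : ℝ) ≤ n := by exact_mod_cast hn
  have h1 : tau n ^ k ≤ n * (1 + Real.log n) ^ 2 ^ k :=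
    (single_le_sum (f := fun m => tau m ^ k) (fun m _ => pow_nonneg (tau_nonneg m) k)
      (mem_Icc.2 ⟨hn, le_rfl⟩)).trans (sum_tau_pow_le k n)
  have h2 : (1 + Real.log n) ^ 2 ^ k ≤ C ^ 2 ^ k * n := by
    have l0 := Real.log_nonneg hn1
    calc _ ≤ (C * (n : ℝ) ^ (1 / 2 ^ k : ℝ)) ^ 2 ^ k := by gcongr; exact h n hn1
      _ = _ := by
        rw [mul_pow, ← Real.rpow_natCast ((n : ℝ) ^ (1 / 2 ^ k : ℝ)), ← Real.rpow_mul (by linarith)]
        simp
  have h3 : tau n ^ k ≤ ((C ^ 2 ^ k) ^ (1 / k : ℝ) * (n : ℝ) ^ ε) ^ k := by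
    rw [mul_pow, ← Real.rpow_natCast ((C ^ 2 ^ k) ^ (1 / k : ℝ)), ← Real.rpow_mul (by positivity),
      ← Real.rpow_natCast ((n : ℝ) ^ ε), ← Real.rpow_mul (by linarith), one_div_mul_cancel hk0.ne',
      Real.rpow_one]
    have h4 : (n : ℝ) * n ≤ (n : ℝ) ^ (ε * k) := by
      rw [← sq, ← Real.rpow_two]
      refine Real.rpow_le_rpow_of_exponent_le hn1 ?_
      rwa [div_le_iff₀' hε] at hk
    calc tau n ^ k ≤ n * (C ^ 2 ^ k * n) := h1.trans (by gcongr)
      _ = C ^ 2 ^ k * (n * n) := by ring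
      _ ≤ _ := by gcongr
  exact le_of_pow_le_pow_left₀ hk1 (by positivity) h3

theorem sum_inv_primes_pow (J : ℕ) :
    ∑ p ∈ Nat.primesLE (2 ^ (J + 1)), 1 / (p : ℝ) ≤ 1 / 2 + 4 * ∑ j ∈ Icc 1 J, 1 / (j : ℝ) := by
  induction J with
  | zero =>
    have : Nat.primesLE (2 ^ (0 + 1)) = {2} := by decide
    rw [this]; simp
  | succ J ih =>
    rw [sum_Icc_succ_top (by omega)]
    have hsub : Nat.primesLE (2 ^ (J + 1)) ⊆ Nat.primesLE (2 ^ (J + 1 + 1)) := by
      intro p hp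
      rw [Nat.mem_primesLE] at hp ⊢
      exact ⟨hp.1.trans (Nat.pow_le_pow_right (by norm_num) (by omega)), hp.2⟩
    rw [← sum_sdiff hsub]
    have l2 : 0 < Real.log 2 := Real.log_pos (by norm_num)
    have h1 : ∑ p ∈ Nat.primesLE (2 ^ (J + 1 + 1)) \ Nat.primesLE (2 ^ (J + 1)), 1 / (p : ℝ) ≤
        ∑ p ∈ Nat.primesLE (2 ^ (J + 1 + 1)),
          Real.log p / (2 ^ (J + 1) * ((J + 1) * Real.log 2)) := by
      refine le_trans (sum_le_sum fun p hp => ?_) (sum_le_sum_of_subset_of_nonneg sdiff_subset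
        fun p _ _ => by have := Real.log_natCast_nonneg p; positivity)
      simp only [mem_sdiff, Nat.mem_primesLE, not_and] at hp
      have h2 : 2 ^ (J + 1) ≤ p := by
        by_contra h
        exact hp.2 (by omega) hp.1.2
      have h3 : (2 : ℝ) ^ (J + 1) ≤ p := by exact_mod_cast h2
      have h4 : (J + 1) * Real.log 2 ≤ Real.log p := by
        have := Real.log_le_log (by positivity) h3
        rw [Real.log_pow] at this; push_cast at this; exact this
      rw [div_le_div_iff₀ (by linarith [pow_pos (two_pos (α := ℝ)) (J + 1)]) (by positivity),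
        one_mul, mul_comm (Real.log p)]
      gcongr
    have h5 := Chebyshev.theta_le_log4_mul_x (x := ((2 ^ (J + 1 + 1) : ℕ) : ℝ)) (by positivity)
    rw [Chebyshev.theta_eq_sum_primesLE_log] at h5
    rw [← sum_div] at h1
    have h6 : Real.log 4 = 2 * Real.log 2 := by
      rw [show (4 : ℝ) = 2 ^ 2 by norm_num, Real.log_pow]; norm_num
    have h7 : (∑ p ∈ Nat.primesLE (2 ^ (J + 1 + 1)), Real.log p) /
        (2 ^ (J + 1) * ((J + 1) * Real.log 2)) ≤ 4 * (1 / ((J + 1 : ℕ) : ℝ)) := by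
      rw [div_le_iff₀ (by positivity)]
      refine h5.trans (le_of_eq ?_)
      rw [h6]; push_cast; field_simp; ring
    linarith

theorem sum_inv_primes_le {y : ℕ} (hy : 2 ≤ y) :
    ∑ p ∈ Nat.primesLE y, 1 / (p : ℝ) ≤ 8 + 4 * Real.log (Real.log y + 1) := by
  set J := Nat.log 2 y
  have h1 : y ≤ 2 ^ (J + 1) := (Nat.lt_pow_succ_log_self (by norm_num) y).le
  have hJ : 1 ≤ J := Nat.le_log_of_pow_le (by norm_num) (by simpa using hy)
  have h2 : (J : ℝ) ≤ 2 * (Real.log y + 1) := by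
    have a1 : (2 : ℝ) ^ J ≤ y := by exact_mod_cast Nat.pow_log_le_self 2 (by omega : y ≠ 0)
    have a2 := Real.log_le_log (by positivity) a1
    rw [Real.log_pow] at a2
    have a3 := Real.log_two_gt_d9
    have a4 : (0 : ℝ) ≤ J := Nat.cast_nonneg _
    nlinarith
  have l0 := Real.log_natCast_nonneg y
  have h3 : Real.log J ≤ Real.log 2 + Real.log (Real.log y + 1) := by
    rw [← Real.log_mul (by norm_num) (by positivity)]
    exact Real.log_le_log (by exact_mod_cast hJ) h2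
  have h4 := Real.log_two_lt_d9
  calc _ ≤ ∑ p ∈ Nat.primesLE (2 ^ (J + 1)), 1 / (p : ℝ) := by
        refine sum_le_sum_of_subset_of_nonneg (fun p hp => ?_) fun _ _ _ => by positivity
        rw [Nat.mem_primesLE] at hp ⊢
        exact ⟨hp.1.trans h1, hp.2⟩
    _ ≤ _ := sum_inv_primes_pow J
    _ ≤ _ := by linarith [sum_inv_le_log J]

/-- `cW y` is the product of `(1 - 1/l)⁻¹` over the primes `l ≤ y`. -/
noncomputable def cW (y : ℕ) : ℝ := ∏ l ∈ Nat.primesLE y, (1 - 1 / (l : ℝ))⁻¹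

theorem inv_one_sub_bd {l : ℕ} (hl : 2 ≤ l) :
    1 ≤ (1 - 1 / (l : ℝ))⁻¹ ∧ (1 - 1 / (l : ℝ))⁻¹ ≤ 1 + 2 / l := by
  have h : (2 : ℝ) ≤ l := by exact_mod_cast hl
  have e1 : (1 - 1 / (l : ℝ))⁻¹ = l / (l - 1) := by
    have : (l : ℝ) - 1 ≠ 0 := by linarith
    field_simp
  rw [e1]
  constructor
  · rw [le_div_iff₀ (by linarith)]; linarith
  · rw [div_le_iff₀ (by linarith)]
    have : (1 + 2 / (l : ℝ)) * (l - 1) = l + 1 - 2 / l := by field_simp; ring
    have : 2 / (l : ℝ) ≤ 1 := by rw [div_le_one (by linarith)]; exact h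
    linarith

theorem one_le_cW (y : ℕ) : 1 ≤ cW y :=
  (prod_le_prod (f := fun _ => (1 : ℝ)) (fun _ _ => zero_le_one)
    fun l hl => (inv_one_sub_bd (Nat.mem_primesLE.1 hl).2.two_le).1).trans' (by simp)

theorem cW_le_log {y : ℕ} (hy : 2 ≤ y) : cW y ≤ Real.exp 16 * (Real.log y + 1) ^ 8 := by
  have l0 := Real.log_natCast_nonneg y
  calc cW y ≤ ∏ l ∈ Nat.primesLE y, Real.exp (2 * (1 / (l : ℝ))) := by
        refine prod_le_prod (fun l hl => ?_) fun l hl => ?_
        · linarith [(inv_one_sub_bd (Nat.mem_primesLE.1 hl).2.two_le).1]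
        · refine (inv_one_sub_bd (Nat.mem_primesLE.1 hl).2.two_le).2.trans ?_
          have := Real.add_one_le_exp (2 * (1 / (l : ℝ)))
          rw [mul_one_div] at this ⊢; linarith
    _ = Real.exp (2 * ∑ l ∈ Nat.primesLE y, 1 / (l : ℝ)) := by rw [mul_sum, Real.exp_sum]
    _ ≤ Real.exp (16 + (8 : ℕ) * Real.log (Real.log y + 1)) := by
        rw [Real.exp_le_exp]; push_cast; linarith [sum_inv_primes_le hy]
    _ = _ := by rw [Real.exp_add, Real.exp_nat_mul, Real.exp_log (by positivity)]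

theorem cW_le_self {y : ℕ} (hy : 1 ≤ y) : cW y ≤ y := by
  induction y, hy using Nat.le_induction with
  | base =>
    have : Nat.primesLE 1 = ∅ := by decide
    simp [cW, this]
  | succ y hy ih =>
    have hy' : (1 : ℝ) ≤ y := by exact_mod_cast hy
    by_cases h : (y + 1).Prime
    · have e1 : Nat.primesLE (y + 1) = insert (y + 1) (Nat.primesLE y) := by
        ext p; simp only [Nat.mem_primesLE, mem_insert]
        constructor
        · rintro ⟨h1, h2⟩
          rcases Nat.lt_or_eq_of_le h1 with h3 | h3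
          · exact Or.inr ⟨by omega, h2⟩
          · exact Or.inl h3
        · rintro (rfl | ⟨h1, h2⟩)
          · exact ⟨le_rfl, h⟩
          · exact ⟨by omega, h2⟩
      unfold cW at ih ⊢
      rw [e1, prod_insert (by simp [Nat.mem_primesLE])]
      have e2 : (1 - 1 / ((y + 1 : ℕ) : ℝ))⁻¹ = (y + 1) / y := by
        push_cast
        rw [show 1 - 1 / ((y : ℝ) + 1) = y / (y + 1) by field_simp; ring, inv_div]
      rw [e2]
      calc _ ≤ ((y : ℝ) + 1) / y * y := by gcongr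
        _ = _ := by push_cast; field_simp
    · have e1 : Nat.primesLE (y + 1) = Nat.primesLE y := by
        ext p; simp only [Nat.mem_primesLE]
        constructor
        · rintro ⟨h1, h2⟩
          rcases Nat.lt_or_eq_of_le h1 with h3 | h3
          · exact ⟨by omega, h2⟩
          · exact absurd (h3 ▸ h2) h
        · rintro ⟨h1, h2⟩; exact ⟨by omega, h2⟩
      unfold cW at ih ⊢
      rw [e1]; push_cast; linarith

end Pool.Agent.P.MP_0ad054_nt
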