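import Mathlib
import Pool.Agent.Lib.helper9.SphereSieve

/-! Local densities for the form x^2+3y^2+5z^2+7w^2 on spheres, and the sieve result. -/

namespace Pool.Agent.P.MP_0ad054_nt

open Finset Pool.Agent.Lib.H9

/-- the bad residues -/
def bad (l : ℕ) (w : Fin 4 → ZMod l) : Prop :=
  w 0 ^ 2 + 3 * w 1 ^ 2 + 5 * w 2 ^ 2 + 7 * w 3 ^ 2 = 0 ∨
    w 0 ^ 2 + 3 * w 1 ^ 2 + 5 * w 2 ^ 2 + 7 * w 3 ^ 2 = 2

theorem card_sq_eq_le {F : Type*} [Field F] [Fintype F] [DecidableEq F] (A : F) :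
    (univ.filter (fun x : F => x ^ 2 = A)).card ≤ 2 := by
  rcases (univ.filter (fun x : F => x ^ 2 = A)).eq_empty_or_nonempty with h | ⟨x, hx⟩
  · simp [h]
  · refine le_trans (card_le_card (t := {x, -x}) ?_) card_le_two
    intro y hy
    simp only [mem_filter, mem_univ, true_and] at hx hy
    simpa using sq_eq_sq_iff_eq_or_eq_neg.1 (hy.trans hx.symm)

open Classical in
theorem card_bad_le (l : ℕ) [Fact l.Prime] (hl2 : l ≠ 2) (c : ZMod l) :
    ((lev l c).filter (bad l)).card ≤ 8 * l ^ 2 := by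
  have h2 : (2 : ZMod l) ≠ 0 := Ring.two_ne_zero (by rw [ZMod.ringChar_zmod_n]; exact hl2)
  have key : ∀ b : ZMod l, ((lev l c).filter
      (fun w => w 0 ^ 2 + 3 * w 1 ^ 2 + 5 * w 2 ^ 2 + 7 * w 3 ^ 2 = b)).card ≤ 4 * l ^ 2 := by
    intro b
    have := card_le_mul_card_image_of_maps_to (s := (lev l c).filter
      (fun w => w 0 ^ 2 + 3 * w 1 ^ 2 + 5 * w 2 ^ 2 + 7 * w 3 ^ 2 = b))
      (t := (univ : Finset (ZMod l × ZMod l))) (f := fun w => (w 2, w 3)) (fun _ _ => mem_univ _) 4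
      (by
        rintro ⟨z, t⟩ _
        set B := (b - c - 4 * z ^ 2 - 6 * t ^ 2) / 2
        set A := c - B - z ^ 2 - t ^ 2
        refine le_trans (card_le_card_of_injOn (fun w => (w 0, w 1))
          (t := (univ.filter (fun x : ZMod l => x ^ 2 = A)) ×ˢ
            (univ.filter (fun x : ZMod l => x ^ 2 = B))) ?_ ?_) ?_
        · intro w hw
          simp only [coe_filter, mem_filter, mem_lev, Set.mem_ofPred_eq, Prod.mk.injEq,
            Fin.sum_univ_four] at hw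
          obtain ⟨⟨⟨_, h3⟩, h4⟩, h5, h6⟩ := hw
          have hB : w 1 ^ 2 = B := by
            simp only [B]; rw [← h5, ← h6, ← h3, ← h4]; field_simp; ring
          simp only [coe_product, coe_filter, mem_univ, true_and, Set.mem_prod, Set.mem_ofPred_eq]
          refine ⟨?_, hB⟩
          simp only [A]; rw [← hB, ← h5, ← h6, ← h3]; ring
        · intro v hv w hw h
          simp only [coe_filter, Set.mem_ofPred_eq, Prod.mk.injEq] at hv hw h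
          funext j
          fin_cases j
          · exact h.1
          · exact h.2
          · exact hv.2.1.trans hw.2.1.symm
          · exact hv.2.2.trans hw.2.2.symm
        · rw [card_product]
          exact Nat.mul_le_mul (card_sq_eq_le A) (card_sq_eq_le B))
    simpa [sq] using this
  have : (lev l c).filter (bad l) = (lev l c).filter
      (fun w => w 0 ^ 2 + 3 * w 1 ^ 2 + 5 * w 2 ^ 2 + 7 * w 3 ^ 2 = 0) ∪ (lev l c).filter
      (fun w => w 0 ^ 2 + 3 * w 1 ^ 2 + 5 * w 2 ^ 2 + 7 * w 3 ^ 2 = 2) := by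
    rw [← filter_or]; exact filter_congr fun w _ => Iff.rfl
  rw [this]
  have := card_union_le ((lev l c).filter
      (fun w => w 0 ^ 2 + 3 * w 1 ^ 2 + 5 * w 2 ^ 2 + 7 * w 3 ^ 2 = 0)) ((lev l c).filter
      (fun w => w 0 ^ 2 + 3 * w 1 ^ 2 + 5 * w 2 ^ 2 + 7 * w 3 ^ 2 = 2))
  have h0 := key 0
  have h1 := key 2
  omega

theorem good3 : ∀ c : ZMod 3, ∃ x y z w : ZMod 3, (x ≠ 0 ∨ y ≠ 0 ∨ z ≠ 0 ∨ w ≠ 0) ∧
    x ^ 2 + y ^ 2 + z ^ 2 + w ^ 2 = c ∧ x ^ 2 + 3 * y ^ 2 + 5 * z ^ 2 + 7 * w ^ 2 ≠ 0 ∧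
    x ^ 2 + 3 * y ^ 2 + 5 * z ^ 2 + 7 * w ^ 2 ≠ 2 := by decide +kernel

theorem good5 : ∀ c : ZMod 5, ∃ x y z w : ZMod 5, (x ≠ 0 ∨ y ≠ 0 ∨ z ≠ 0 ∨ w ≠ 0) ∧
    x ^ 2 + y ^ 2 + z ^ 2 + w ^ 2 = c ∧ x ^ 2 + 3 * y ^ 2 + 5 * z ^ 2 + 7 * w ^ 2 ≠ 0 ∧
    x ^ 2 + 3 * y ^ 2 + 5 * z ^ 2 + 7 * w ^ 2 ≠ 2 := by decide +kernel

theorem good7 : ∀ c : ZMod 7, ∃ x y z w : ZMod 7, (x ≠ 0 ∨ y ≠ 0 ∨ z ≠ 0 ∨ w ≠ 0) ∧
    x ^ 2 + y ^ 2 + z ^ 2 + w ^ 2 = c ∧ x ^ 2 + 3 * y ^ 2 + 5 * z ^ 2 + 7 * w ^ 2 ≠ 0 ∧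
    x ^ 2 + 3 * y ^ 2 + 5 * z ^ 2 + 7 * w ^ 2 ≠ 2 := by decide +kernel

open Classical in
theorem dens_small (l : ℕ) [Fact l.Prime] (hl : l ≤ 7) (c : ZMod l)
    (h : ∃ x y z w : ZMod l, (x ≠ 0 ∨ y ≠ 0 ∨ z ≠ 0 ∨ w ≠ 0) ∧
    x ^ 2 + y ^ 2 + z ^ 2 + w ^ 2 = c ∧ x ^ 2 + 3 * y ^ 2 + 5 * z ^ 2 + 7 * w ^ 2 ≠ 0 ∧
    x ^ 2 + 3 * y ^ 2 + 5 * z ^ 2 + 7 * w ^ 2 ≠ 2) :
    (((lev l c).filter (bad l)).card : ℝ) / (lev l c).card ≤ 1 - 1 / 2401 := by
  obtain ⟨x, y, z, w, h1, h2, h3, h4⟩ := h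
  have hm : ![x, y, z, w] ∈ lev l c := by
    rw [mem_lev]
    refine ⟨fun h0 => ?_, by simpa [Fin.sum_univ_four] using h2⟩
    have a0 := congrFun h0 0
    have a1 := congrFun h0 1
    have a2 := congrFun h0 2
    have a3 := congrFun h0 3
    simp at a0 a1 a2 a3
    tauto
  have h5 : ((lev l c).filter (bad l)).card < (lev l c).card := by
    refine card_lt_card (filter_ssubset.2 ⟨_, hm, ?_⟩)
    simp [bad, h3, h4]
  have h6 : (lev l c).card ≤ 2401 := by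
    refine (card_le_univ _).trans ?_
    simp only [Fintype.card_pi, ZMod.card, prod_const, card_univ, Fintype.card_fin]
    exact (Nat.pow_le_pow_left hl 4).trans (by norm_num)
  have h7 : (((lev l c).filter (bad l)).card : ℝ) + 1 ≤ (lev l c).card := by exact_mod_cast h5
  have h8 : ((lev l c).card : ℝ) ≤ 2401 := by exact_mod_cast h6
  have h9 : (0 : ℝ) ≤ ((lev l c).filter (bad l)).card := by positivity
  rw [div_le_iff₀ (by linarith)]
  linarith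

theorem dens_bad (n : ℤ) (l : ℕ) (hl : l.Prime) (hl2 : l ≠ 2) :
    dens bad n l ≤ 9 / l ∧ dens bad n l ≤ 1 - 1 / 2401 := by
  classical
  have : Fact l.Prime := ⟨hl⟩
  have hl0 : (0 : ℝ) < l := by exact_mod_cast hl.pos
  by_cases h : l ≤ 7
  · constructor
    · refine (dens_le_one _ _ _).trans ?_
      rw [le_div_iff₀ hl0]
      have : (l : ℝ) ≤ 7 := by exact_mod_cast h
      linarith
    · unfold Lib.H9.dens
      rw [dif_pos hl]
      refine dens_small l h _ ?_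
      have := hl.two_le
      interval_cases l
      · exact absurd rfl hl2
      · exact good3 _
      · exact absurd hl (by norm_num)
      · exact good5 _
      · exact absurd hl (by norm_num)
      · exact good7 _
  · have h11 : 11 ≤ l := by
      by_contra h'
      have : l = 8 ∨ l = 9 ∨ l = 10 := by omega
      rcases this with rfl | rfl | rfl <;> exact absurd hl (by norm_num)
    have h11' : (11 : ℝ) ≤ l := by exact_mod_cast h11
    have h1 := card_lev_ge l hl2 n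
    have h2 : (((lev l n).filter (bad l)).card : ℝ) ≤ 8 * l ^ 2 := by
      exact_mod_cast card_bad_le l hl2 n
    have h3 : dens bad n l ≤ 9 / l := by
      unfold Lib.H9.dens
      rw [dif_pos hl, div_le_div_iff₀ (by nlinarith) hl0]
      nlinarith
    refine ⟨h3, h3.trans ?_⟩
    rw [div_le_iff₀ hl0]; linarith

theorem rough_large : ∃ c : ℝ, 0 < c ∧ ∃ n0 : ℕ, ∀ n : ℕ, n0 ≤ n → Odd n →
    ∃ x y z w : ℤ, x ^ 2 + y ^ 2 + z ^ 2 + w ^ 2 = n ∧ ∀ q : ℕ, q.Prime → q ≠ 2 →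
      (q : ℤ) ∣ (x ^ 2 + 3 * y ^ 2 + 5 * z ^ 2 + 7 * w ^ 2) *
        (x ^ 2 + 3 * y ^ 2 + 5 * z ^ 2 + 7 * w ^ 2 - 2) → (n : ℝ) ^ c < q := by
  obtain ⟨c, hc, n0, h⟩ := sphere_sieve 9 (1 / 2401) (by norm_num) (by norm_num)
  refine ⟨c, hc, n0, fun n hn hodd => ?_⟩
  obtain ⟨v, hv, h1⟩ := h n hn hodd bad (fun l hl hl2 => dens_bad n l hl hl2)
  rw [psphere, mem_filter, mem_sphere, nsq_eq] at hv
  refine ⟨v 0, v 1, v 2, v 3, hv.1, fun q hq hq2 hd => ?_⟩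
  by_contra hle
  refine h1 q hq hq2 (not_lt.1 hle) ?_
  rcases (Nat.prime_iff_prime_int.1 hq).dvd_or_dvd hd with h2 | h2
  · left
    have := (ZMod.intCast_zmod_eq_zero_iff_dvd _ _).2 h2
    push_cast at this; exact this
  · right
    have := (ZMod.intCast_zmod_eq_zero_iff_dvd _ _).2 h2
    push_cast at this; exact sub_eq_zero.1 this

theorem cardFactors_le {m : ℕ} (hm : m ≠ 0) {t : ℝ} (ht : 0 ≤ t)
    (h : ∀ q : ℕ, q.Prime → q ∣ m → t ≤ q) : t ^ (ArithmeticFunction.cardFactors m) ≤ m := by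
  induction m using Nat.recOnMul with
  | zero => exact absurd rfl hm
  | one => simp
  | prime p hp => simpa [hp] using h p hp dvd_rfl
  | mul a b iha ihb =>
    have ha : a ≠ 0 := left_ne_zero_of_mul hm
    have hb : b ≠ 0 := right_ne_zero_of_mul hm
    rw [ArithmeticFunction.cardFactors_mul ha hb, pow_add]
    push_cast
    exact mul_le_mul (iha ha fun q hq hd => h q hq (hd.mul_right _))
      (ihb hb fun q hq hd => h q hq (hd.mul_left _)) (by positivity) (by positivity)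

theorem exists_rep_seven {n : ℕ} (hn : 0 < n) :
    ∃ x y z w : ℤ, x ^ 2 + y ^ 2 + z ^ 2 + w ^ 2 = n ∧ w ≠ 0 := by
  obtain ⟨a, b, c, d, h⟩ := Nat.sum_four_squares n
  have h' : (a : ℤ) ^ 2 + b ^ 2 + c ^ 2 + d ^ 2 = n := by exact_mod_cast h
  by_cases ha : (a : ℤ) ≠ 0
  · exact ⟨d, b, c, a, by linarith, ha⟩
  by_cases hb : (b : ℤ) ≠ 0
  · exact ⟨a, d, c, b, by linarith, hb⟩
  by_cases hc : (c : ℤ) ≠ 0
  · exact ⟨a, b, d, c, by linarith, hc⟩
  refine ⟨a, b, c, d, h', fun hd => ?_⟩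
  push Not at ha hb hc
  rw [ha, hb, hc, hd] at h'
  omega

theorem rough_all : ∃ c : ℝ, 0 < c ∧ ∀ n : ℕ, Odd n →
    ∃ x y z w : ℤ, ∃ p : ℕ, x ^ 2 + y ^ 2 + z ^ 2 + w ^ 2 = n ∧
      (p : ℤ) = x ^ 2 + 3 * y ^ 2 + 5 * z ^ 2 + 7 * w ^ 2 ∧ 7 ≤ p ∧ Odd p ∧
      ∀ q : ℕ, q.Prime → q ∣ p * (p - 2) → (n : ℝ) ^ c ≤ q := by
  obtain ⟨c, hc, n0, h⟩ := rough_large
  set N : ℕ := max n0 7
  have hN1 : (1 : ℝ) < N := by
    have : 7 ≤ N := le_max_right _ _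
    exact_mod_cast (by omega : 1 < N)
  have hlog : 0 < Real.log N := Real.log_pos hN1
  have hl2 : 0 < Real.log 2 := Real.log_pos (by norm_num)
  refine ⟨min c (Real.log 2 / Real.log N), by positivity, fun n hodd => ?_⟩
  have hn1 : (1 : ℝ) ≤ n := by exact_mod_cast hodd.pos
  have aux : ∀ x y z w : ℤ, x ^ 2 + y ^ 2 + z ^ 2 + w ^ 2 = n →
      ∃ p : ℕ, (p : ℤ) = x ^ 2 + 3 * y ^ 2 + 5 * z ^ 2 + 7 * w ^ 2 ∧ Odd p := by
    intro x y z w hs
    refine ⟨(x ^ 2 + 3 * y ^ 2 + 5 * z ^ 2 + 7 * w ^ 2).toNat,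
      Int.toNat_of_nonneg (by positivity), ?_⟩
    rw [← Int.odd_coe_nat, Int.toNat_of_nonneg (by positivity)]
    obtain ⟨k, hk⟩ := hodd
    have hk' : (n : ℤ) = 2 * k + 1 := by exact_mod_cast hk
    exact ⟨k + y ^ 2 + 2 * z ^ 2 + 3 * w ^ 2, by linear_combination hs + hk'⟩
  by_cases hn : N ≤ n
  · obtain ⟨x, y, z, w, hs, h1⟩ := h n ((le_max_left _ _).trans hn) hodd
    obtain ⟨p, hp, hpo⟩ := aux x y z w hs
    have h7 : 7 ≤ p := by
      have h2 : 7 ≤ n := (le_max_right _ _).trans hn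
      have : (n : ℤ) ≤ p := by rw [hp, ← hs]; nlinarith [sq_nonneg y, sq_nonneg z, sq_nonneg w]
      omega
    refine ⟨x, y, z, w, p, hs, hp, h7, hpo, fun q hq hd => ?_⟩
    have hq2 : q ≠ 2 := by
      rintro rfl
      have : Odd (p * (p - 2)) := hpo.mul (by obtain ⟨k, hk⟩ := hpo; exact ⟨k - 1, by omega⟩)
      exact (Nat.not_even_iff_odd.2 this) (even_iff_two_dvd.2 hd)
    refine le_trans (Real.rpow_le_rpow_of_exponent_le hn1 (min_le_left _ _)) (h1 q hq hq2 ?_).le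
    rw [← hp]
    have : ((p * (p - 2) : ℕ) : ℤ) = p * (p - 2) := by
      rw [Nat.cast_mul, Nat.cast_sub (by omega)]; rfl
    rw [← this]; exact_mod_cast hd
  · obtain ⟨x, y, z, w, hs, hw⟩ := exists_rep_seven hodd.pos
    obtain ⟨p, hp, hpo⟩ := aux x y z w hs
    have h7 : 7 ≤ p := by
      have : 0 < w ^ 2 := by positivity
      have : (7 : ℤ) ≤ p := by rw [hp]; nlinarith [sq_nonneg y, sq_nonneg z, sq_nonneg x]
      omega
    refine ⟨x, y, z, w, p, hs, hp, h7, hpo, fun q hq _ => ?_⟩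
    have hnN : (n : ℝ) ≤ N := by exact_mod_cast (not_le.1 hn).le
    calc (n : ℝ) ^ min c (Real.log 2 / Real.log N) ≤ (n : ℝ) ^ (Real.log 2 / Real.log N) :=
          Real.rpow_le_rpow_of_exponent_le hn1 (min_le_right _ _)
      _ ≤ (N : ℝ) ^ (Real.log 2 / Real.log N) := by gcongr
      _ = 2 := by
        rw [Real.rpow_def_of_pos (by linarith), mul_div_cancel₀ _ hlog.ne', Real.exp_log two_pos]
      _ ≤ q := by exact_mod_cast hq.two_le

theorem main : ∃ (R : ℕ) (c : ℝ), 0 < c ∧ ∀ n : ℕ, Odd n →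
    ∃ x y z w : ℤ, ∃ p : ℕ, x ^ 2 + y ^ 2 + z ^ 2 + w ^ 2 = (n : ℤ) ∧
      (p : ℤ) = x ^ 2 + 3 * y ^ 2 + 5 * z ^ 2 + 7 * w ^ 2 ∧ 7 ≤ p ∧
      p.primeFactorsList.length ≤ R ∧ (p - 2).primeFactorsList.length ≤ R ∧
      ∀ q : ℕ, q.Prime → q ∣ p * (p - 2) → (n : ℝ) ^ c ≤ q := by
  obtain ⟨c, hc, h⟩ := rough_all
  refine ⟨⌈3 / c⌉₊ + 7, c, hc, fun n hodd => ?_⟩
  obtain ⟨x, y, z, w, p, hs, hp, h7, hpo, hq⟩ := h n hodd
  have hp7 : p ≤ 7 * n := by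
    have : (p : ℤ) ≤ 7 * n := by
      rw [hp, ← hs]; nlinarith [sq_nonneg y, sq_nonneg z, sq_nonneg x]
    omega
  have key : ∀ m : ℕ, m ≠ 0 → m ≤ 7 * n → m ∣ p * (p - 2) →
      m.primeFactorsList.length ≤ ⌈3 / c⌉₊ + 7 := by
    intro m hm0 hm hd
    rw [← ArithmeticFunction.cardFactors_apply]
    rcases Nat.lt_or_ge n 3 with h3 | h3
    · have h1 : n = 1 := by obtain ⟨k, hk⟩ := hodd; omega
      have h2 := cardFactors_le hm0 (t := 2) (by norm_num)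
        (fun q hq _ => by exact_mod_cast hq.two_le)
      have h4 : 2 ^ ArithmeticFunction.cardFactors m ≤ m := by exact_mod_cast h2
      have := Nat.lt_two_pow_self (n := ArithmeticFunction.cardFactors m)
      omega
    · have hn3 : (3 : ℝ) ≤ n := by exact_mod_cast h3
      have h2 := cardFactors_le hm0 (t := (n : ℝ) ^ c) (by positivity)
        (fun q hq' hd' => hq q hq' (hd'.trans hd))
      have h4 : (m : ℝ) ≤ (n : ℝ) ^ (3 : ℝ) := by
        have : (m : ℝ) ≤ 7 * n := by exact_mod_cast hm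
        rw [show (3 : ℝ) = (3 : ℕ) by norm_num, Real.rpow_natCast]
        have h9 : (9 : ℝ) ≤ (n : ℝ) ^ 2 := by nlinarith
        nlinarith
      rw [← Real.rpow_natCast, ← Real.rpow_mul (by linarith)] at h2
      have h5 := (Real.rpow_le_rpow_left_iff (by linarith : (1 : ℝ) < n)).1 (h2.trans h4)
      have h6 : (ArithmeticFunction.cardFactors m : ℝ) ≤ 3 / c := by
        rw [le_div_iff₀ hc]; linarith
      have h8 := h6.trans (Nat.le_ceil _)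
      have : ArithmeticFunction.cardFactors m ≤ ⌈3 / c⌉₊ := by exact_mod_cast h8
      omega
  exact ⟨x, y, z, w, p, hs, hp, h7, key p (by omega) hp7 (Dvd.intro _ rfl),
    key (p - 2) (by omega) (by omega) (Dvd.intro_left _ rfl), hq⟩

end Pool.Agent.P.MP_0ad054_nt
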