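import Mathlib

/-! Elementary exponential sum bounds: geometric sums, sums of minima, a bilinear bound. -/

namespace Pool.Agent.P.MP_0ad054_nt

open Finset Complex Real
open scoped ComplexConjugate

/-- `e x = exp (2 π i x)` for real `x`. -/
noncomputable def e (x : ℝ) : ℂ := Complex.exp (2 * π * I * x)

theorem e_add (x y : ℝ) : e (x + y) = e x * e y := by
  unfold e; rw [← Complex.exp_add]; congr 1; push_cast; ring

theorem e_zero : e 0 = 1 := by simp [e]

theorem e_int (k : ℤ) : e k = 1 := by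
  unfold e
  rw [← Complex.exp_int_mul_two_pi_mul_I k]; congr 1; push_cast; ring

theorem norm_e (x : ℝ) : ‖e x‖ = 1 := by
  have : e x = Complex.exp ((2 * π * x : ℝ) * I) := by unfold e; congr 1; push_cast; ring
  rw [this, Complex.norm_exp_ofReal_mul_I]

theorem conj_e (x : ℝ) : conj (e x) = e (-x) := by
  unfold e; rw [← Complex.exp_conj]; congr 1; simp [map_ofNat]

theorem e_sub (x y : ℝ) : e (x - y) = e x * conj (e y) := by
  rw [conj_e, ← e_add]; rfl

theorem e_add_int (x : ℝ) (k : ℤ) : e (x + k) = e x := by rw [e_add, e_int, mul_one]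

theorem norm_e_sub_one_le (x : ℝ) : ‖e x - 1‖ ≤ 2 * π * |x| := by
  have : e x = Complex.exp (I * (2 * π * x : ℝ)) := by unfold e; congr 1; push_cast; ring
  rw [this]
  refine Real.norm_exp_I_mul_ofReal_sub_one_le.trans (le_of_eq ?_)
  rw [Real.norm_eq_abs, abs_mul, abs_of_pos (by positivity)]

theorem norm_e_sub_le (x y : ℝ) : ‖e x - e y‖ ≤ 2 * π * |x - y| := by
  have : e x - e y = e y * (e (x - y) - 1) := by
    rw [mul_sub, ← e_add, mul_one]; congr 2; ring
  rw [this, norm_mul, norm_e, one_mul]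
  exact norm_e_sub_one_le _

/-- distance to the nearest integer -/
noncomputable def dn (x : ℝ) : ℝ := |x - round x|

theorem dn_nonneg (x : ℝ) : 0 ≤ dn x := abs_nonneg _

theorem dn_le (x : ℝ) (k : ℤ) : dn x ≤ |x - k| := round_le x k

theorem dn_le_half (x : ℝ) : dn x ≤ 1 / 2 := abs_sub_round x

theorem dn_add_int (x : ℝ) (k : ℤ) : dn (x + k) = dn x := by
  unfold dn; rw [round_add_intCast]; congr 1; push_cast; ring

theorem dn_neg (x : ℝ) : dn (-x) = dn x := by
  apply le_antisymm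
  · refine (dn_le _ (-round x)).trans (le_of_eq ?_)
    unfold dn; rw [← abs_neg]; congr 1; push_cast; ring
  · refine (dn_le _ (-round (-x))).trans (le_of_eq ?_)
    unfold dn; rw [← abs_neg]; congr 1; push_cast; ring

theorem dn_add_le (x y : ℝ) : dn (x + y) ≤ dn x + |y| := by
  refine (dn_le _ (round x)).trans ?_
  have : x + y - round x = (x - round x) + y := by ring
  rw [this]; exact abs_add_le _ _

theorem dn_mul_le (k : ℤ) (x : ℝ) : dn (k * x) ≤ |(k : ℝ)| * dn x := by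
  refine (dn_le _ (k * round x)).trans (le_of_eq ?_)
  unfold dn; rw [← abs_mul]; congr 1; push_cast; ring

theorem four_dn_le (x : ℝ) : 4 * dn x ≤ ‖e x - 1‖ := by
  set t := x - round x with ht
  have h1 : e x = e t := by rw [ht, sub_eq_add_neg, ← Int.cast_neg, e_add_int]
  have h2 : |t| ≤ 1 / 2 := abs_sub_round x
  have h3 : e t = Complex.exp (I * (2 * π * t : ℝ)) := by unfold e; congr 1; push_cast; ring
  rw [h1, h3, Complex.norm_exp_I_mul_ofReal_sub_one, Real.norm_eq_abs]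
  have h4 : 2 * π * t / 2 = π * t := by ring
  rw [h4, abs_mul, abs_two]
  have h5 : |π * t| ≤ π / 2 := by
    rw [abs_mul, abs_of_pos Real.pi_pos]; nlinarith [Real.pi_pos]
  have h6 := Real.mul_abs_le_abs_sin h5
  have h7 : 2 / π * |π * t| = 2 * |t| := by
    rw [abs_mul, abs_of_pos Real.pi_pos]; field_simp
  unfold dn; rw [← ht]; linarith

/-- `mn Y x = min (Y, 1 / (2 dn x))`. -/
noncomputable def mn (Y x : ℝ) : ℝ := Y / max 1 (2 * Y * dn x)

theorem mn_nonneg {Y : ℝ} (hY : 0 ≤ Y) (x : ℝ) : 0 ≤ mn Y x := by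
  unfold mn; positivity

theorem mn_le {Y : ℝ} (hY : 0 ≤ Y) (x : ℝ) : mn Y x ≤ Y :=
  div_le_self hY (le_max_left _ _)

theorem mn_le_of {Y x d : ℝ} (hY : 0 ≤ Y) (hd : 0 < d) (h : d ≤ dn x) : mn Y x ≤ 1 / (2 * d) := by
  unfold mn
  rw [div_le_div_iff₀ (by positivity) (by positivity)]
  have := le_max_right 1 (2 * Y * dn x)
  nlinarith

theorem mn_neg (Y x : ℝ) : mn Y (-x) = mn Y x := by unfold mn; rw [dn_neg]

theorem mn_mono {Y Y' : ℝ} (hY : 0 ≤ Y) (h : Y ≤ Y') (x : ℝ) : mn Y x ≤ mn Y' x := by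
  unfold mn
  have hd := dn_nonneg x
  rw [div_le_div_iff₀ (by positivity) (by positivity)]
  rcases le_total 1 (2 * Y * dn x) with h1 | h1
  · rw [max_eq_right h1, max_eq_right (by nlinarith)]; nlinarith
  · rw [max_eq_left h1]
    rcases le_total 1 (2 * Y' * dn x) with h2 | h2
    · rw [max_eq_right h2]; nlinarith
    · rw [max_eq_left h2]; linarith

theorem geom_range (x : ℝ) (n : ℕ) : (∑ i ∈ range n, e (x * i)) * (e x - 1) = e (x * n) - 1 := by
  induction n with
  | zero => simp [e_zero]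
  | succ n ih =>
    rw [sum_range_succ, add_mul, ih]
    have : e (x * (n + 1 : ℕ)) = e (x * n) * e x := by rw [← e_add]; congr 1; push_cast; ring
    rw [this]; ring

theorem geom_Ico (x : ℝ) (a b : ℤ) {Y : ℝ} (hY : ((Ico a b).card : ℝ) ≤ Y) :
    ‖∑ n ∈ Ico a b, e (x * n)‖ ≤ mn Y x := by
  have hY0 : 0 ≤ Y := le_trans (by positivity) hY
  have h1 : ‖∑ n ∈ Ico a b, e (x * n)‖ ≤ Y := by
    refine (norm_sum_le _ _).trans ?_
    simp only [norm_e, sum_const, nsmul_eq_mul, mul_one]; exact hY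
  have h2 : ‖∑ n ∈ Ico a b, e (x * n)‖ * (4 * dn x) ≤ 2 := by
    have e1 : ∑ n ∈ Ico a b, e (x * n) = e (x * a) * ∑ i ∈ range (b - a).toNat, e (x * i) := by
      rw [Int.Ico_eq_finset_map, sum_map, mul_sum]
      refine sum_congr rfl fun i _ => ?_
      rw [← e_add]; congr 1; simp; ring
    rw [e1, norm_mul, norm_e, one_mul]
    have h3 := congrArg norm (geom_range x (b - a).toNat)
    rw [norm_mul] at h3
    have h4 : ‖e (x * ((b - a).toNat : ℕ)) - 1‖ ≤ 2 := by
      refine (norm_sub_le _ _).trans ?_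
      rw [norm_e, norm_one]; norm_num
    calc _ ≤ ‖∑ i ∈ range (b - a).toNat, e (x * i)‖ * ‖e x - 1‖ := by
          gcongr; exact four_dn_le x
      _ ≤ 2 := by rw [h3]; exact h4
  unfold mn
  rw [le_div_iff₀ (by positivity)]
  rcases le_total 1 (2 * Y * dn x) with h | h
  · rw [max_eq_right h]; nlinarith
  · rw [max_eq_left h]; linarith

theorem geom_convex (x : ℝ) (S : Finset ℤ)
    (hS : ∀ a b c : ℤ, a ∈ S → c ∈ S → a ≤ b → b ≤ c → b ∈ S) {Y : ℝ} (hY : (S.card : ℝ) ≤ Y) :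
    ‖∑ n ∈ S, e (x * n)‖ ≤ mn Y x := by
  rcases S.eq_empty_or_nonempty with rfl | hne
  · simp only [sum_empty, norm_zero]; exact mn_nonneg (le_trans (by positivity) hY) _
  · have : S = Ico (S.min' hne) (S.max' hne + 1) := by
      ext n
      rw [mem_Ico]
      constructor
      · intro hn; exact ⟨min'_le _ _ hn, by have := le_max' _ _ hn; omega⟩
      · intro hn; exact hS _ _ _ (min'_mem _ hne) (max'_mem _ hne) hn.1 (by omega)
    rw [this] at hY ⊢
    exact geom_Ico x _ _ hY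

/-- the comparison function for the sum of minima -/
noncomputable def gm (Y : ℝ) (q x : ℕ) : ℝ := if x ≤ 2 then Y else q / x

theorem gm_nonneg {Y : ℝ} (hY : 0 ≤ Y) (q x : ℕ) : 0 ≤ gm Y q x := by
  unfold gm; split_ifs <;> positivity

theorem sum_gm_le {Y : ℝ} (hY : 0 ≤ Y) (q : ℕ) :
    ∑ x ∈ range (q + 1), gm Y q x ≤ 3 * Y + q * (1 + Real.log q) := by
  have h1 : ∀ x ∈ range (q + 1), gm Y q x ≤
      (if x ∈ range 3 then Y else 0) + (if x ∈ Icc 1 q then q * ((x : ℝ))⁻¹ else 0) := by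
    intro x hx
    rw [mem_range] at hx
    unfold gm
    by_cases h : x ≤ 2
    · rw [if_pos h, if_pos (mem_range.2 (by omega))]
      split_ifs
      · have : (0 : ℝ) ≤ q * ((x : ℝ))⁻¹ := by positivity
        linarith
      · linarith
    · rw [if_neg h, if_neg (by rw [mem_range]; omega), if_pos (mem_Icc.2 ⟨by omega, by omega⟩)]
      rw [div_eq_mul_inv]; linarith
  refine (sum_le_sum h1).trans ?_
  rw [sum_add_distrib, ← sum_filter, ← sum_filter]
  have h2 : ∑ x ∈ (range (q + 1)).filter (· ∈ range 3), Y ≤ 3 * Y := by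
    rw [sum_const, nsmul_eq_mul]
    have : ((range (q + 1)).filter (· ∈ range 3)).card ≤ 3 := by
      refine (card_le_card (t := range 3) fun x hx => (mem_filter.1 hx).2).trans (by simp)
    have : (((range (q + 1)).filter (· ∈ range 3)).card : ℝ) ≤ 3 := by exact_mod_cast this
    gcongr
  have h3 : ∑ x ∈ (range (q + 1)).filter (· ∈ Icc 1 q), q * ((x : ℝ))⁻¹ ≤
      q * (1 + Real.log q) := by
    calc _ ≤ ∑ x ∈ Icc 1 q, q * ((x : ℝ))⁻¹ :=
          sum_le_sum_of_subset_of_nonneg (fun x hx => (mem_filter.1 hx).2)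
            (fun _ _ _ => by positivity)
      _ = q * harmonic q := by rw [harmonic_eq_sum_Icc, ← mul_sum]; push_cast; rfl
      _ ≤ _ := by gcongr; exact harmonic_le_one_add_log q
  linarith

theorem dn_div_ge {q : ℕ} (hq : 0 < q) {ρ : ℕ} (hρ : ρ < q) :
    ((min ρ (q - ρ) : ℕ) : ℝ) / q ≤ dn ((ρ : ℝ) / q) := by
  have hq' : (0 : ℝ) < q := by exact_mod_cast hq
  unfold dn
  set k := round ((ρ : ℝ) / q)
  rw [div_le_iff₀ hq']
  have e1 : |(ρ : ℝ) / q - k| * q = |((ρ - k * q : ℤ) : ℝ)| := by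
    rw [← abs_of_pos hq', ← abs_mul, abs_of_pos hq']; congr 1; push_cast; field_simp
  rw [e1, ← Int.cast_abs]
  have : ((min ρ (q - ρ) : ℕ) : ℤ) ≤ |(ρ - k * q : ℤ)| := by
    rcases le_or_gt k 0 with hk | hk
    · have : k * q ≤ 0 := by nlinarith
      rw [abs_of_nonneg (by omega)]
      have := min_le_left ρ (q - ρ)
      omega
    · have : (q : ℤ) ≤ k * q := by nlinarith
      rw [abs_of_nonpos (by omega)]
      have := min_le_right ρ (q - ρ)
      omega
  exact_mod_cast this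

theorem minsum_block {x Y : ℝ} (hY : 0 ≤ Y) {a : ℤ} {q : ℕ} (hq : 0 < q) (ha : IsCoprime a q)
    (hx : |x - a / q| ≤ 1 / q ^ 2) (j0 : ℤ) :
    ∑ i ∈ range q, mn Y (x * (j0 + i)) ≤ 6 * Y + 2 * q * (1 + Real.log q) := by
  have hq' : (0 : ℝ) < q := by exact_mod_cast hq
  set c := round (q * x * j0)
  have hc : |q * x * j0 - c| ≤ 1 / 2 := abs_sub_round _
  set ρ : ℕ → ℕ := fun i => ((c + a * i) % q).toNat with hρ
  have hρlt : ∀ i, ρ i < q := fun i => by
    have := Int.emod_lt_of_pos (c + a * i) (show (0 : ℤ) < q by exact_mod_cast hq)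
    have := Int.emod_nonneg (c + a * i) (show (q : ℤ) ≠ 0 by exact_mod_cast hq.ne')
    simp only [hρ]; omega
  have hρeq : ∀ i, ((ρ i : ℕ) : ℤ) = (c + a * i) % q := fun i =>
    Int.toNat_of_nonneg (Int.emod_nonneg _ (by exact_mod_cast hq.ne'))
  have hinj : Set.InjOn ρ (range q : Set ℕ) := by
    intro i hi j hj hij
    simp only [coe_range, Set.mem_Iio] at hi hj
    have h1 : (c + a * i) % q = (c + a * j) % q := by rw [← hρeq, ← hρeq, hij]
    have h2 : (q : ℤ) ∣ a * ((j : ℤ) - i) := by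
      have := Int.ModEq.dvd h1
      convert this using 1; ring
    have h3 : (q : ℤ) ∣ (j : ℤ) - i := ha.symm.dvd_of_dvd_mul_left h2
    have := Int.eq_zero_of_abs_lt_dvd h3 (by rw [abs_lt]; constructor <;> omega)
    omega
  have hpt : ∀ i ∈ range q, mn Y (x * (j0 + i)) ≤ gm Y q (ρ i) + gm Y q (q - ρ i) := by
    intro i hi
    rw [mem_range] at hi
    have g1 := gm_nonneg hY q (ρ i)
    have g2 := gm_nonneg hY q (q - ρ i)
    set m := min (ρ i) (q - ρ i) with hm
    have key : mn Y (x * (j0 + i)) ≤ gm Y q m := by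
      unfold gm
      split_ifs with h
      · exact mn_le hY _
      · have hm3 : (3 : ℝ) ≤ m := by exact_mod_cast (by omega : 3 ≤ m)
        have d1 := dn_div_ge hq (hρlt i)
        rw [← hm] at d1
        have e1 : ((ρ i : ℕ) : ℝ) / q = x * (j0 + i) + ((-((c + a * i) / q) : ℤ) : ℝ) +
            -((q * x * j0 - c) / q + (x - a / q) * i) := by
          have h5 : ((ρ i : ℕ) : ℝ) = c + a * i - q * ((c + a * i) / q : ℤ) := by
            have := Int.emod_def (c + a * i) q
            rw [← hρeq] at this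
            exact_mod_cast this
          rw [h5]; push_cast; field_simp; ring
        have d2 : dn (((ρ i : ℕ) : ℝ) / q) ≤ dn (x * (j0 + i)) + 3 / (2 * q) := by
          rw [e1]
          refine (dn_add_le _ _).trans ?_
          rw [dn_add_int, abs_neg]
          have b1 : |(q * x * j0 - c) / q| ≤ 1 / (2 * q) := by
            rw [abs_div, abs_of_pos hq', div_le_div_iff₀ hq' (by positivity)]; nlinarith
          have b2 : |(x - a / q) * i| ≤ 1 / q := by
            rw [abs_mul, Nat.abs_cast]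
            have : (i : ℝ) ≤ q := by exact_mod_cast hi.le
            calc _ ≤ 1 / (q : ℝ) ^ 2 * q := by gcongr
              _ = 1 / q := by field_simp
          have b3 := abs_add_le ((q * x * j0 - c) / q) ((x - a / q) * i)
          have : 1 / (2 * (q : ℝ)) + 1 / q = 3 / (2 * q) := by field_simp; ring
          linarith
        have d3 : (m : ℝ) / (2 * q) ≤ dn (x * (j0 + i)) := by
          have : (m : ℝ) / (2 * q) + 3 / (2 * q) ≤ m / q := by
            rw [← add_div, div_le_div_iff₀ (by positivity) hq']; nlinarith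
          linarith
        refine (mn_le_of hY (by positivity) d3).trans (le_of_eq ?_)
        field_simp
    rcases min_choice (ρ i) (q - ρ i) with h | h <;> rw [← hm] at h <;> rw [h] at key <;> linarith
  refine (sum_le_sum hpt).trans ?_
  rw [sum_add_distrib]
  have s1 : ∑ i ∈ range q, gm Y q (ρ i) ≤ ∑ x ∈ range (q + 1), gm Y q x := by
    rw [← sum_image (f := gm Y q) hinj]
    refine sum_le_sum_of_subset_of_nonneg ?_ fun _ _ _ => gm_nonneg hY _ _
    intro x hx
    obtain ⟨i, _, rfl⟩ := mem_image.1 hx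
    exact mem_range.2 (by have := hρlt i; omega)
  have s2 : ∑ i ∈ range q, gm Y q (q - ρ i) ≤ ∑ x ∈ range (q + 1), gm Y q x := by
    have hinj' : Set.InjOn (fun i => q - ρ i) (range q : Set ℕ) := by
      intro i hi j hj hij
      have := hρlt i
      have := hρlt j
      exact hinj hi hj (by simp only at hij; omega)
    rw [← sum_image (f := gm Y q) hinj']
    refine sum_le_sum_of_subset_of_nonneg ?_ fun _ _ _ => gm_nonneg hY _ _
    intro x hx
    obtain ⟨i, _, rfl⟩ := mem_image.1 hx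
    exact mem_range.2 (by omega)
  have := sum_gm_le hY q
  linarith

theorem minsum_range {x Y : ℝ} (hY : 0 ≤ Y) {a : ℤ} {q : ℕ} (hq : 0 < q) (ha : IsCoprime a q)
    (hx : |x - a / q| ≤ 1 / q ^ 2) (j0 : ℤ) (n : ℕ) :
    ∑ i ∈ range n, mn Y (x * (j0 + i)) ≤ (n / q + 1) * (6 * Y + 2 * q * (1 + Real.log q)) := by
  have hq' : (0 : ℝ) < q := by exact_mod_cast hq
  have hB : 0 ≤ 6 * Y + 2 * q * (1 + Real.log q) := by
    have := Real.log_natCast_nonneg q
    positivity
  have key : ∀ k : ℕ, ∑ i ∈ range (k * q), mn Y (x * (j0 + i)) ≤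
      k * (6 * Y + 2 * q * (1 + Real.log q)) := by
    intro k
    induction k with
    | zero => simp
    | succ k ih =>
      rw [Nat.succ_mul, sum_range_add]
      have := minsum_block hY hq ha hx (j0 + k * q)
      push_cast at this ⊢
      simp only [add_assoc] at this
      linarith
  have h1 : n ≤ (n / q + 1) * q := by
    have := Nat.lt_div_mul_add hq (a := n)
    rw [add_mul]; omega
  calc _ ≤ ∑ i ∈ range ((n / q + 1) * q), mn Y (x * (j0 + i)) :=
        sum_le_sum_of_subset_of_nonneg (range_subset_range.2 h1) fun _ _ _ => mn_nonneg hY _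
    _ ≤ _ := key _
    _ ≤ _ := by
      gcongr
      push_cast
      have := Nat.cast_div_le (α := ℝ) (m := n) (n := q)
      linarith

theorem minsum_Icc {x Y : ℝ} (hY : 0 ≤ Y) {a : ℤ} {q : ℕ} (hq : 0 < q) (ha : IsCoprime a q)
    (hx : |x - a / q| ≤ 1 / q ^ 2) (u v : ℤ) :
    ∑ j ∈ Icc u v, mn Y (x * j) ≤
      (((Icc u v).card : ℝ) / q + 1) * (6 * Y + 2 * q * (1 + Real.log q)) := by
  have := minsum_range hY hq ha hx u (v + 1 - u).toNat
  rw [Int.card_Icc, Int.Icc_eq_finset_map, sum_map]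
  refine le_trans (le_of_eq (sum_congr rfl fun i _ => ?_)) this
  simp

theorem dn_small {x : ℝ} {a : ℤ} {q : ℕ} (hq : 0 < q) (ha : IsCoprime a q)
    (hx : |x - a / q| ≤ 1 / q ^ 2) {k : ℕ} (hk : 0 < k) (hkq : 2 * k ≤ q) :
    1 / (2 * q) ≤ dn (x * k) := by
  have hq' : (0 : ℝ) < q := by exact_mod_cast hq
  have h1 : 1 / (q : ℝ) ≤ dn (a * k / q) := by
    unfold dn
    set r := round ((a : ℝ) * k / q)
    have hne : a * k - r * q ≠ 0 := by
      intro h
      have h2 : (q : ℤ) ∣ a * k := ⟨r, by linarith⟩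
      have h3 := ha.symm.dvd_of_dvd_mul_left h2
      have := Int.le_of_dvd (by exact_mod_cast hk) h3
      omega
    have h4 : (1 : ℝ) ≤ |((a * k - r * q : ℤ) : ℝ)| := by
      rw [← Int.cast_abs]; exact_mod_cast Int.one_le_abs hne
    have e1 : (a : ℝ) * k / q - r = ((a * k - r * q : ℤ) : ℝ) / q := by push_cast; field_simp
    rw [e1, abs_div, abs_of_pos hq']; gcongr
  have h2 : dn (a * k / q) ≤ dn (x * k) + 1 / (2 * q) := by
    have e1 : (a : ℝ) * k / q = x * k + -((x - a / q) * k) := by field_simp; ring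
    rw [e1]
    refine (dn_add_le _ _).trans ?_
    rw [abs_neg, abs_mul, Nat.abs_cast]
    have : (k : ℝ) ≤ q / 2 := by
      have : (2 * k : ℝ) ≤ q := by exact_mod_cast hkq
      linarith
    have : |x - a / q| * k ≤ 1 / (2 * q) := by
      calc _ ≤ 1 / (q : ℝ) ^ 2 * (q / 2) := by gcongr
        _ = _ := by field_simp
    linarith
  have : 1 / (q : ℝ) = 1 / (2 * q) + 1 / (2 * q) := by field_simp; ring
  linarith

theorem normSq_eq (z : ℂ) : ((‖z‖ ^ 2 : ℝ) : ℂ) = z * conj z := by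
  rw [Complex.mul_conj, Complex.normSq_eq_norm_sq]

theorem cs_norm {ι : Type*} (s : Finset ι) (f g : ι → ℂ) :
    ‖∑ i ∈ s, f i * g i‖ ^ 2 ≤ (∑ i ∈ s, ‖f i‖ ^ 2) * ∑ i ∈ s, ‖g i‖ ^ 2 := by
  refine le_trans ?_ (sum_mul_sq_le_sq_mul_sq s (fun i => ‖f i‖) (fun i => ‖g i‖))
  gcongr
  refine (norm_sum_le _ _).trans (le_of_eq (sum_congr rfl fun i _ => norm_mul _ _))

/-- The bilinear bound. -/
theorem bilinear (x : ℝ) (S T : Finset ℤ) (Ω : ℤ → ℤ → Prop) [∀ a b, Decidable (Ω a b)]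
    (F G : ℤ → ℂ) {Y V : ℝ} (hY : (S.card : ℝ) ≤ Y)
    (hS : ∀ a b c : ℤ, a ∈ S → c ∈ S → a ≤ b → b ≤ c → b ∈ S)
    (hΩ : ∀ j a b c : ℤ, Ω a j → Ω c j → a ≤ b → b ≤ c → Ω b j)
    (hV : ∀ j ∈ T, ∑ j' ∈ T, mn Y (x * (j - j')) ≤ V) :
    ‖∑ i ∈ S, ∑ j ∈ T, if Ω i j then F i * G j * e (x * i * j) else 0‖ ^ 2 ≤
      (∑ i ∈ S, ‖F i‖ ^ 2) * (∑ j ∈ T, ‖G j‖ ^ 2) * V := by
  have hY0 : 0 ≤ Y := le_trans (by positivity) hY
  set H : ℤ → ℂ := fun i => ∑ j ∈ T, if Ω i j then G j * e (x * i * j) else 0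
  have e1 : ∑ i ∈ S, ∑ j ∈ T, (if Ω i j then F i * G j * e (x * i * j) else 0) =
      ∑ i ∈ S, F i * H i := by
    refine sum_congr rfl fun i _ => ?_
    simp only [H, mul_sum]
    refine sum_congr rfl fun j _ => ?_
    split_ifs <;> ring
  rw [e1, mul_assoc]
  refine (cs_norm _ _ _).trans ?_
  gcongr
  have e2 : ((∑ i ∈ S, ‖H i‖ ^ 2 : ℝ) : ℂ) = ∑ j ∈ T, ∑ j' ∈ T, G j * conj (G j') *
      ∑ i ∈ S.filter (fun i => Ω i j ∧ Ω i j'), e (x * (j - j') * i) := by
    push_cast
    have : ∀ i ∈ S, ((‖H i‖ : ℂ)) ^ 2 = ∑ j ∈ T, ∑ j' ∈ T,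
        if Ω i j ∧ Ω i j' then G j * conj (G j') * e (x * (j - j') * i) else 0 := by
      intro i _
      have := normSq_eq (H i)
      push_cast at this
      rw [this]
      simp only [H, map_sum, sum_mul_sum]
      refine sum_congr rfl fun j _ => sum_congr rfl fun j' _ => ?_
      by_cases h1 : Ω i j <;> by_cases h2 : Ω i j' <;> simp [h1, h2]
      have : e (x * (j - j') * i) = e (x * i * j) * conj (e (x * i * j')) := by
        rw [← e_sub]; congr 1; ring
      rw [this]; ring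
    rw [sum_congr rfl this, sum_comm]
    refine sum_congr rfl fun j _ => ?_
    rw [sum_comm]
    refine sum_congr rfl fun j' _ => ?_
    rw [mul_sum, sum_filter]
  have e3 := congrArg norm e2
  rw [Complex.norm_real, Real.norm_of_nonneg (by positivity)] at e3
  rw [e3]
  have b1 : ∀ j ∈ T, ∀ j' ∈ T, ‖G j * conj (G j') *
      ∑ i ∈ S.filter (fun i => Ω i j ∧ Ω i j'), e (x * (j - j') * i)‖ ≤
      ‖G j‖ ^ 2 / 2 * mn Y (x * (j - j')) + ‖G j'‖ ^ 2 / 2 * mn Y (x * (j' - j)) := by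
    intro j _ j' _
    have g1 := geom_convex (x * (j - j')) (S.filter (fun i => Ω i j ∧ Ω i j')) (Y := Y)
      (fun a b c ha hc hab hbc => by
        rw [mem_filter] at ha hc ⊢
        exact ⟨hS a b c ha.1 hc.1 hab hbc, hΩ j a b c ha.2.1 hc.2.1 hab hbc,
          hΩ j' a b c ha.2.2 hc.2.2 hab hbc⟩)
      (le_trans (by exact_mod_cast card_filter_le _ _) hY)
    have g2 : mn Y (x * (j' - j)) = mn Y (x * (j - j')) := by
      rw [← mn_neg]; congr 1; ring
    rw [g2, norm_mul, norm_mul, Complex.norm_conj]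
    have g3 := mn_nonneg hY0 (x * (j - j'))
    calc _ ≤ ‖G j‖ * ‖G j'‖ * mn Y (x * (j - j')) := by gcongr
      _ ≤ _ := by nlinarith [mul_nonneg g3 (sq_nonneg (‖G j‖ - ‖G j'‖))]
  refine (norm_sum_le _ _).trans ((sum_le_sum fun j hj =>
    (norm_sum_le _ _).trans (sum_le_sum (b1 j hj))).trans ?_)
  simp only [sum_add_distrib]
  rw [sum_comm (f := fun j j' : ℤ => ‖G j'‖ ^ 2 / 2 * mn Y (x * (j' - j)))]
  simp only [← mul_sum]
  have b2 : ∑ j ∈ T, ‖G j‖ ^ 2 / 2 * ∑ j' ∈ T, mn Y (x * (j - j')) ≤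
      ∑ j ∈ T, ‖G j‖ ^ 2 / 2 * V := sum_le_sum fun j hj => by gcongr; exact hV j hj
  rw [← sum_mul, ← sum_div] at b2
  linarith

end Pool.Agent.P.MP_0ad054_nt
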