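import Mathlib
import Pool.Agent.P.MP_0ad054_nt.Sun.All
import Pool.Agent.P.MP_0ad054_nt.Sun.FinB

namespace Pool.Agent.P.MP_0ad054_nt.PrimeAlmostAllOld

open Pool.Agent.P.MP_0ad054_nt.Sun

/-- For all odd `n ≤ N` outside a set of size `O_A (N / (log N) ^ A)` there is a representation
`n = x^2+y^2+z^2+w^2` with `p = x^2+3y^2+5z^2+7w^2` prime and `p - 2` a product of at most `R`
primes, all at least `n ^ c`. -/
theorem result :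
    ∃ (R : ℕ) (c : ℝ), 0 < c ∧ ∀ A : ℕ, ∃ C : ℝ, ∀ N : ℕ, 2 ≤ N →
      (({n : ℕ | n ≤ N ∧ Odd n ∧ ¬ ∃ x y z w : ℤ, ∃ p : ℕ,
        x ^ 2 + y ^ 2 + z ^ 2 + w ^ 2 = (n : ℤ) ∧
        (p : ℤ) = x ^ 2 + 3 * y ^ 2 + 5 * z ^ 2 + 7 * w ^ 2 ∧ p.Prime ∧
        (p - 2).primeFactorsList.length ≤ R ∧
        ∀ q : ℕ, q.Prime → q ∣ p - 2 → (n : ℝ) ^ c ≤ q}.ncard : ℕ) : ℝ) ≤
        C * N / Real.log N ^ A := by
  obtain ⟨R, c, hc, h⟩ := FinP.large trans_all mom rg minor_all central_all sphere weights delta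
    primes_all
  exact ⟨R, c, hc, FinP.all_of h⟩

end Pool.Agent.P.MP_0ad054_nt.PrimeAlmostAllOld
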